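import Pool.Agent.H139.LG.Grp

set_option autoImplicit false
set_option linter.unusedVariables false

/-!
# Odd cycles from even cycles (LG13)
-/

namespace Pool.Agent.H139.LG13

open MonoidAlgebra
open Pool.Agent.H416.LG
open Pool.Agent.V11187.DG (eT dg eT_add eT_zero eT_single)

universe u v w

section pos

open Polynomial

/-- the beta integrals are positive -/
theorem beta_pos (b : ℕ) : ∀ a : ℕ, 0 < II (Int.castAddHom ℚ) ((X : Polynomial ℤ) ^ a * (1 - X) ^ b) := by
  induction b with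
  | zero =>
    intro a
    rw [pow_zero, mul_one, ← monomial_one_right_eq_X_pow, II_mon]
    show 0 < ((1 : ℤ) : ℚ) / ((a : ℚ) + 1)
    rw [Int.cast_one]
    positivity
  | succ b ih =>
    intro a
    have h1 : derivative ((X : Polynomial ℤ) ^ (a + 1) * (1 - X) ^ (b + 1)) =
        (a + 1) • (X ^ a * (1 - X) ^ (b + 1)) - (b + 1) • (X ^ (a + 1) * (1 - X) ^ b) := by
      rw [derivative_mul, derivative_X_pow, derivative_pow, derivative_sub, derivative_one,
        derivative_X, nsmul_eq_mul, nsmul_eq_mul, Nat.add_sub_cancel, Nat.add_sub_cancel]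
      simp only [map_natCast]
      ring
    have h2 := II_der (Int.castAddHom ℚ) ((X : Polynomial ℤ) ^ (a + 1) * (1 - X) ^ (b + 1))
    have h3 : e1 ((X : Polynomial ℤ) ^ (a + 1) * (1 - X) ^ (b + 1)) = 0 := by
      have h4 : e1 (X : Polynomial ℤ) = 1 := by
        rw [← monomial_one_one_eq_X, e1_mon]
      rw [map_mul, map_pow, map_pow, map_sub, map_one, h4, sub_self, zero_pow (Nat.succ_ne_zero b),
        mul_zero]
    have h5 : e0 ((X : Polynomial ℤ) ^ (a + 1) * (1 - X) ^ (b + 1)) = 0 := by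
      have h4 : e0 (X : Polynomial ℤ) = 0 := by
        rw [← monomial_one_one_eq_X, e0_mon, pow_one, mul_zero]
      rw [map_mul, map_pow, map_pow, h4, zero_pow (Nat.succ_ne_zero a), zero_mul]
    rw [h1, h3, h5, sub_self, map_sub, map_nsmul, map_nsmul, nsmul_eq_mul, nsmul_eq_mul] at h2
    have h6 := ih (a + 1)
    have h7 : 0 < ((b + 1 : ℕ) : ℚ) := by positivity
    have h8 : 0 < ((a + 1 : ℕ) : ℚ) := by positivity
    have h9 : 0 < ((a + 1 : ℕ) : ℚ) * II (Int.castAddHom ℚ) ((X : Polynomial ℤ) ^ a * (1 - X) ^ (b + 1)) := by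
      have := mul_pos h7 h6
      linarith
    exact (mul_pos_iff_of_pos_left h8).1 h9

theorem beta_ne (n : ℕ) :
    II (Int.castAddHom ℚ) (((n + 1 : ℕ) : Polynomial ℤ) * (-((X : Polynomial ℤ) * (1 - X))) ^ n) ≠ 0 := by
  have h1 := beta_pos n n
  have h2 : ((n + 1 : ℕ) : ℚ) ≠ 0 := by positivity
  rw [← nsmul_eq_mul, map_nsmul, nsmul_eq_mul]
  refine mul_ne_zero h2 ?_
  rcases Nat.even_or_odd n with h | h
  · rw [h.neg_pow, mul_pow]
    exact h1.ne'
  · rw [h.neg_pow, mul_pow, map_neg]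
    exact (neg_lt_zero.2 h1).ne

end pos

section final

variable {Ω : Type v} [Ring Ω] {ε : Ω →+* Ω} {G : Type w} [Group G]

theorem f0_tt : f0 (tt ε) = 0 := by
  show e0 (Polynomial.X : Polynomial Ω) = 0
  rw [← Polynomial.monomial_one_one_eq_X, e0_mon, pow_one, mul_zero]

theorem f1_tt : f1 (tt ε) = 1 := by
  show e1 (Polynomial.X : Polynomial Ω) = 1
  rw [← Polynomial.monomial_one_one_eq_X, e1_mon]

/-- the constant part of the idempotent -/
noncomputable def p0 (ε : Ω →+* Ω) : Bd ε := ⟨!![1 - tt ε, 0; 0, tt ε], by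
  rw [mem_Bd]
  simp only [Matrix.of_apply, Matrix.cons_val', Matrix.cons_val_zero, Matrix.cons_val_one,
    Matrix.cons_val_fin_one, map_zero, map_sub, map_one, f0_tt, f1_tt, sub_zero, sub_self]
  exact ⟨trivial, trivial, one_mem _, zero_mem _, zero_mem _, one_mem _⟩⟩

/-- the part of `u` -/
noncomputable def φ1 (ε : Ω →+* Ω) : Ω →+ Bd ε where
  toFun r := ⟨!![0, tt ε * DD.cc r; 0, 0], by
    rw [mem_Bd]
    simp only [Matrix.of_apply, Matrix.cons_val', Matrix.cons_val_zero, Matrix.cons_val_one,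
      Matrix.cons_val_fin_one, map_zero, map_mul, f0_tt, zero_mul]
    exact ⟨trivial, trivial, zero_mem _, zero_mem _, zero_mem _, zero_mem _⟩⟩
  map_zero' := by
    refine Subtype.ext (Matrix.ext fun i j => ?_)
    fin_cases i <;> fin_cases j <;> simp
  map_add' x y := by
    refine Subtype.ext (Matrix.ext fun i j => ?_)
    fin_cases i <;> fin_cases j <;> simp [mul_add]

/-- the part of `v` -/
noncomputable def φ2 (ε : Ω →+* Ω) : Ω →+ Bd ε where
  toFun r := ⟨!![0, 0; (1 - tt ε) * DD.cc r, 0], by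
    rw [mem_Bd]
    simp only [Matrix.of_apply, Matrix.cons_val', Matrix.cons_val_zero, Matrix.cons_val_one,
      Matrix.cons_val_fin_one, map_zero, map_mul, map_sub, map_one, f1_tt, sub_self, zero_mul]
    exact ⟨trivial, trivial, zero_mem _, zero_mem _, zero_mem _, zero_mem _⟩⟩
  map_zero' := by
    refine Subtype.ext (Matrix.ext fun i j => ?_)
    fin_cases i <;> fin_cases j <;> simp
  map_add' x y := by
    refine Subtype.ext (Matrix.ext fun i j => ?_)
    fin_cases i <;> fin_cases j <;> simp [mul_add]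

/-- the idempotent -/
noncomputable def pp (ε : Ω →+* Ω) (u v : MonoidAlgebra Ω G) : MonoidAlgebra (Bd ε) G :=
  single 1 (p0 ε) + cG G (φ1 ε) u + cG G (φ2 ε) v

theorem JJ_cG (φ : Ω →+ Bd ε) (d : DD ε) (i j : Fin 2) (h : ∀ r, (φ r).1 i j = d * DD.cc r)
    (z : MonoidAlgebra Ω G) :
    JJ (Bd ε) G (cG G φ z) i j = single 1 d * mapRingHom G DD.cc z := by
  apply coeff_injective
  ext1 x
  rw [JJ_coeff, cG_coeff, h, coeff_single_mul_apply, coeff_mapRingHom, inv_one, one_mul]

theorem JJ_pp (u v : MonoidAlgebra Ω G) : JJ (Bd ε) G (pp ε u v) =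
    qq (single 1 (tt ε)) (mapRingHom G DD.cc u) (mapRingHom G DD.cc v) := by
  unfold pp
  rw [map_add, map_add]
  ext1 i j
  rw [Matrix.add_apply, Matrix.add_apply, JJ_single]
  have z : ∀ w : MonoidAlgebra Ω G, (single 1 (0 : DD ε) : MonoidAlgebra (DD ε) G) *
      mapRingHom G DD.cc w = 0 := fun w => by rw [single_zero, zero_mul]
  have e1 : (single 1 (1 - tt ε) : MonoidAlgebra (DD ε) G) = 1 - single 1 (tt ε) := by
    rw [single_sub, one_def]
  fin_cases i <;> fin_cases j
  · rw [JJ_cG (φ1 ε) 0 _ _ (fun r => by simp [φ1]), JJ_cG (φ2 ε) 0 _ _ (fun r => by simp [φ2]),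
      z, z, add_zero, add_zero]
    exact e1
  · rw [JJ_cG (φ1 ε) (tt ε) _ _ (fun r => by simp [φ1]),
      JJ_cG (φ2 ε) 0 _ _ (fun r => by simp [φ2]), z, add_zero]
    have e2 : (single 1 ((p0 ε).1 0 1) : MonoidAlgebra (DD ε) G) = 0 := single_zero _
    exact (congrArg (· + _) e2).trans (zero_add _)
  · rw [JJ_cG (φ1 ε) 0 _ _ (fun r => by simp [φ1]),
      JJ_cG (φ2 ε) (1 - tt ε) _ _ (fun r => by simp [φ2]), z, add_zero, e1]
    have e2 : (single 1 ((p0 ε).1 1 0) : MonoidAlgebra (DD ε) G) = 0 := single_zero _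
    exact (congrArg (· + _) e2).trans (zero_add _)
  · rw [JJ_cG (φ1 ε) 0 _ _ (fun r => by simp [φ1]), JJ_cG (φ2 ε) 0 _ _ (fun r => by simp [φ2]),
      z, z, add_zero, add_zero]
    rfl

theorem JJ_dG {δ : Ω →+ Ω} (h : ∀ a b, δ (a * b) = δ a * b + ε a * δ b)
    (α : MonoidAlgebra (Bd ε) G) : JJ (Bd ε) G (dG G (dlB δ h) α) =
      (JJ (Bd ε) G α).map (dG G (DD.dl δ)) := by
  ext1 i j
  apply coeff_injective
  ext1 x
  rw [JJ_coeff, dG_coeff, Matrix.map_apply, dG_coeff, JJ_coeff]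
  rfl

theorem dl_one {δ : Ω →+ Ω} (h : ∀ a b, δ (a * b) = δ a * b + ε a * δ b) : δ 1 = 0 := by
  have := ZZ_dl h (one_mem (ZZ Ω))
  exact this

theorem dl_tt {δ : Ω →+ Ω} (h : ∀ a b, δ (a * b) = δ a * b + ε a * δ b) :
    DD.dl δ (tt ε) = th ε := by
  refine DD.ext ?_ ?_
  · rw [DD.dl_a]
    show cw δ (Polynomial.X : Polynomial Ω) = 0
    rw [← Polynomial.monomial_one_one_eq_X, cw_mon, dl_one h, map_zero]
  · rw [DD.dl_b]
    show (Polynomial.derivative (Polynomial.X : Polynomial Ω)).map ε + cw δ 0 = 1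
    rw [Polynomial.derivative_X, Polynomial.map_one, map_zero, add_zero]

theorem ep_tt : DD.ep (tt ε) = tt ε := by
  refine DD.ext ?_ ?_
  · rw [DD.ep_a]
    exact Polynomial.map_X _
  · rw [DD.ep_b]
    show -(0 : Polynomial Ω).map ε = 0
    rw [Polynomial.map_zero, neg_zero]

theorem dG_tt {δ : Ω →+ Ω} (h : ∀ a b, δ (a * b) = δ a * b + ε a * δ b) :
    dG G (DD.dl δ) (single 1 (tt ε)) = single 1 (th ε) := by
  rw [dG_single, dl_tt h]

theorem dG_one' {δ : Ω →+ Ω} (h : ∀ a b, δ (a * b) = δ a * b + ε a * δ b) :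
    dG G (DD.dl (ε := ε) δ) 1 = 0 := by
  have e : DD.dl (ε := ε) δ 1 = 0 := by
    have e1 := cc_dl (ε := ε) δ 1
    rw [map_one, dl_one h, map_zero] at e1
    exact e1
  rw [one_def, dG_single, e, single_zero]

theorem map_qq {δ : Ω →+ Ω} {T : Ω →+ ℚ} (h : PO ε δ T) (u v : MonoidAlgebra Ω G) :
    (qq (single 1 (tt ε)) (mapRingHom G (DD.cc (ε := ε)) u)
      (mapRingHom G (DD.cc (ε := ε)) v)).map (dG G (DD.dl δ)) =
    dq (single 1 (tt ε)) (single 1 (th ε)) (mapRingHom G DD.cc u) (mapRingHom G DD.cc v)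
      (mapRingHom G DD.cc (dG G δ u)) (mapRingHom G DD.cc (dG G δ v)) := by
  have h1 : mapRingHom G DD.ep (single 1 (tt ε) : MonoidAlgebra (DD ε) G) =
      single 1 (tt ε) := by rw [mapRingHom_single, ep_tt]
  have h2 : dG G (DD.dl δ) (1 - single 1 (tt ε)) = -single 1 (th ε) := by
    rw [map_sub, dG_one' h.leib, dG_tt h.leib, zero_sub]
  refine mat_ext ?_ ?_ ?_ ?_
  · rw [Matrix.map_apply, qq00, dq00]
    exact h2
  · rw [Matrix.map_apply, qq01, dq01, dG_leib (DD.leib h), dG_tt h.leib, h1, map_cc_dG]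
  · rw [Matrix.map_apply, qq10, dq10, dG_leib (DD.leib h), h2, map_sub, map_one, h1, map_cc_dG,
      neg_mul]
  · rw [Matrix.map_apply, qq11, dq11]
    exact dG_tt h.leib

theorem pp_even (h : ∀ a, ε (ε a) = a) (u v : MonoidAlgebra Ω G)
    (hu : ∀ x, ε (u.coeff x) = u.coeff x) (hv : ∀ x, ε (v.coeff x) = v.coeff x) (x : G) :
    epB ε ((pp ε u v).coeff x) = (pp ε u v).coeff x := by
  classical
  unfold pp
  rw [coeff_add, coeff_add, Finsupp.add_apply, Finsupp.add_apply, cG_coeff, cG_coeff, map_add,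
    map_add, coeff_single, Finsupp.single_apply]
  have e0 : epB ε (p0 ε) = p0 ε := by
    refine Subtype.ext (Matrix.ext fun i j => ?_)
    show DD.ep ((p0 ε).1 i j) = (p0 ε).1 i j
    fin_cases i <;> fin_cases j
    · show DD.ep (1 - tt ε) = 1 - tt ε
      rw [map_sub, map_one, ep_tt]
    · exact map_zero _
    · exact map_zero _
    · exact ep_tt
  have e1 : epB ε (φ1 ε (u.coeff x)) = φ1 ε (u.coeff x) := by
    refine Subtype.ext (Matrix.ext fun i j => ?_)
    show DD.ep ((φ1 ε (u.coeff x)).1 i j) = (φ1 ε (u.coeff x)).1 i j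
    fin_cases i <;> fin_cases j
    · exact map_zero _
    · show DD.ep (tt ε * DD.cc (u.coeff x)) = tt ε * DD.cc (u.coeff x)
      rw [map_mul, ep_tt, cc_ep, hu]
    · exact map_zero _
    · exact map_zero _
  have e2 : epB ε (φ2 ε (v.coeff x)) = φ2 ε (v.coeff x) := by
    refine Subtype.ext (Matrix.ext fun i j => ?_)
    show DD.ep ((φ2 ε (v.coeff x)).1 i j) = (φ2 ε (v.coeff x)).1 i j
    fin_cases i <;> fin_cases j
    · exact map_zero _
    · exact map_zero _
    · show DD.ep ((1 - tt ε) * DD.cc (v.coeff x)) = (1 - tt ε) * DD.cc (v.coeff x)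
      rw [map_mul, map_sub, map_one, ep_tt, cc_ep, hv]
    · exact map_zero _
  rw [e1, e2]
  congr 2
  split_ifs
  · exact e0
  · exact map_zero _

/-- polynomials with integer coefficients -/
noncomputable def zt (ε : Ω →+* Ω) (G : Type w) [Group G] :
    Polynomial ℤ →+* MonoidAlgebra (DD ε) G where
  toFun p := single 1 ⟨p.map (Int.castRingHom Ω), 0⟩
  map_one' := by
    rw [one_def]
    congr 1
    exact DD.ext (Polynomial.map_one _) rfl
  map_mul' p q := by
    rw [single_mul_single, one_mul]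
    congr 1
    refine DD.ext (Polynomial.map_mul _) ?_
    rw [DD.mul_b]
    show (0 : Polynomial Ω) = _ * 0 + 0 * _
    rw [mul_zero, zero_mul, add_zero]
  map_zero' := by
    rw [← single_zero (M := G) (R := DD ε) 1]
    congr 1
    exact DD.ext (Polynomial.map_zero _) rfl
  map_add' p q := by
    rw [← single_add]
    congr 1
    refine DD.ext (Polynomial.map_add _) ?_
    rw [DD.add_b, add_zero]

theorem zt_eq (p : Polynomial ℤ) :
    zt ε G p = single 1 ⟨p.map (Int.castRingHom Ω), 0⟩ := rfl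

theorem zt_X : zt ε G Polynomial.X = single 1 (tt ε) := by
  rw [zt_eq, Polynomial.map_X]
  rfl

end final

theorem LG13_holds : S_LG13.{v, w} := by
  intro G _ g hE Ω _ ε δ T h u v huv hvu hu hv n
  have hE' := hE (epB ε) (dlB δ h.leib) (TB ε T) (PC_Bd h) (pp ε u v) ?_
    (pp_even h.ee u v hu hv) (n + 1)
  swap
  · apply JJ_inj
    rw [map_mul, JJ_pp]
    refine qq_mul (single_tt_comm _) (single_tt_comm _) ?_ ?_
    · rw [← map_mul, huv, map_one]
    · rw [← map_mul, hvu, map_one]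
  rw [eT_JJ (DD.TT T) (TB ε T) (fun r => rfl), map_mul, map_pow, JJ_dG, JJ_pp, map_qq h] at hE'
  -- the even elements
  have hue : mapRingHom G ε u = u := by
    apply coeff_injective
    ext1 x
    rw [coeff_mapRingHom, hu]
  have hve : mapRingHom G ε v = v := by
    apply coeff_injective
    ext1 x
    rw [coeff_mapRingHom, hv]
  set t : MonoidAlgebra (DD ε) G := single 1 (tt ε) with ht
  set θ : MonoidAlgebra (DD ε) G := single 1 (th ε) with hθ
  set U : MonoidAlgebra (DD ε) G := mapRingHom G DD.cc u with hU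
  set V : MonoidAlgebra (DD ε) G := mapRingHom G DD.cc v with hV
  set dU : MonoidAlgebra (DD ε) G := mapRingHom G DD.cc (dG G δ u) with hdU
  set dV : MonoidAlgebra (DD ε) G := mapRingHom G DD.cc (dG G δ v) with hdV
  have tc : ∀ z, z * t = t * z := single_tt_comm
  have hUV : U * V = 1 := by rw [hU, hV, ← map_mul, huv, map_one]
  have hVU : V * U = 1 := by rw [hU, hV, ← map_mul, hvu, map_one]
  have hθθ : θ * θ = 0 := by rw [hθ, single_mul_single, th_th, single_zero]
  have epU : mapRingHom G DD.ep U = U := by rw [hU, map_cc_ep, hue]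
  have epV : mapRingHom G DD.ep V = V := by rw [hV, map_cc_ep, hve]
  have θU : U * θ = θ * U := by rw [hθ, single_th_comm, epU]
  have θV : V * θ = θ * V := by rw [hθ, single_th_comm, epV]
  have epd : mapRingHom G ε (dG G δ v) = -dG G δ v := by
    apply coeff_injective
    ext1 x
    rw [coeff_mapRingHom, dG_coeff, coeff_neg, Finsupp.neg_apply, dG_coeff]
    have h1 := h.de (v.coeff x)
    rw [hv] at h1
    exact (neg_eq_iff_eq_neg.2 h1).symm
  have θdV : dV * θ = -(θ * dV) := by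
    rw [hθ, single_th_comm, hdV, map_cc_ep, epd, map_neg, neg_mul, neg_neg]
  have h0 : dG G δ (1 : MonoidAlgebra Ω G) = 0 := by
    rw [one_def, dG_single, dl_one h.leib, single_zero]
  have hduv : dG G δ u = -(u * (dG G δ v * u)) := by
    have h1 := dG_leib (G := G) h.leib u v
    rw [huv, h0, hue] at h1
    have h2 : dG G δ u * v * u = -(u * dG G δ v) * u := by
      rw [eq_neg_of_add_eq_zero_left h1.symm]
    rw [mul_assoc, hvu, mul_one] at h2
    rw [h2, neg_mul, mul_assoc]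
  have hdU' : dU = -(U * (dV * U)) := by
    rw [hdU, hduv, map_neg, map_mul, map_mul]
  have key := qq_dq (tc U) (tc V) (tc dV) (tc θ) hθθ θU θV θdV hUV hVU hdU' (n + 1)
  rw [key 0 0, key 1 1] at hE'
  set Φ := θ * (U * dV) - t * (1 - t) * (U * dV * (U * dV)) with hΦ
  have e1 : co V 0 * Φ ^ (n + 1) * ro t U 0 = Φ ^ (n + 1) * (1 - t) := by
    show 1 * Φ ^ (n + 1) * (1 - t) = _
    rw [one_mul]
  have e2 : eT (DD.TT T) (dg g) (co V 1 * Φ ^ (n + 1) * ro t U 1) =
      eT (DD.TT T) (dg g) (Φ ^ (n + 1) * t) := by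
    show eT (DD.TT T) (dg g) (V * Φ ^ (n + 1) * (t * U)) = _
    rw [mul_assoc, eT_tr (DD.ee h) (DD.tr h) g V _ epV, mul_assoc, mul_assoc t, hUV, mul_one]
  rw [e1, e2, ← eT_add, ← mul_add, sub_add_cancel, mul_one] at hE'
  -- the powers of `Φ`
  have sc : ∀ x, t * (1 - t) * x = x * (t * (1 - t)) := by
    intro x
    have : Commute t x := (tc x).symm
    exact (this.mul_left ((Commute.one_left x).sub_left this)).eq
  have ha : U * dV * θ = -(θ * (U * dV)) := by
    rw [mul_assoc, θdV, mul_neg, ← mul_assoc, θU, mul_assoc]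
  have hns : -(t * (1 - t)) = zt ε G (-(Polynomial.X * (1 - Polynomial.X))) := by
    rw [map_neg, map_mul, map_sub, map_one, zt_X]
  have hUdV : U * dV = mapRingHom G DD.cc (u * dG G δ v) := by rw [map_mul]
  rw [hΦ, phi_pow sc hθθ ha n, eT_add, hns, hUdV, ← map_pow, ← map_pow, ← map_pow, ← map_pow,
    ← map_natCast (zt ε G), ← mul_assoc, ← map_mul, zt_eq, zt_eq, eT_fun, zero_add, hθ,
    eT_form h.odd, neg_eq_zero] at hE'
  exact (mul_eq_zero.1 hE').resolve_left (beta_ne n)

end Pool.Agent.H139.LG13
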