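import Pool.Agent.H558.PP.CStm

set_option autoImplicit false

/-!
# Windows in all directions modulo `2 ^ L`: points in two windows (E1)
-/

namespace Pool.Agent.H139.PPE1

open Finset Pool.Agent.H558.PP

theorem dvd_mul_iff {Q d y : ℕ} (hQ : 0 < Q) : Q ∣ d * y ↔ Q / Nat.gcd d Q ∣ y := by
  have hg : 0 < Nat.gcd d Q := Nat.gcd_pos_of_pos_right _ hQ
  obtain ⟨d', Q', hc, hd, hq⟩ := Nat.exists_coprime d Q
  set g := Nat.gcd d Q with hgdef
  have e : Q / g = Q' := by
    conv_lhs => rw [hq]
    exact Nat.mul_div_cancel _ hg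
  rw [e]
  conv_lhs => rw [hq, hd]
  have e2 : d' * g * y = d' * y * g := by ring
  rw [e2, Nat.mul_dvd_mul_iff_right hg]
  exact hc.symm.dvd_mul_left

/-- the number of the solutions of `d * y = 0` -/
theorem ker_card {Q : ℕ} [NeZero Q] (d : ZMod Q) :
    #{y : ZMod Q | d * y = 0} = Nat.gcd d.val Q := by
  have hQ : 0 < Q := Nat.pos_of_ne_zero (NeZero.ne Q)
  have hg : 0 < Nat.gcd d.val Q := Nat.gcd_pos_of_pos_right _ hQ
  set g := Nat.gcd d.val Q with hgdef
  obtain ⟨Q', hq⟩ : g ∣ Q := Nat.gcd_dvd_right _ _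
  have hQ' : Q / g = Q' := by
    rw [hq]
    exact Nat.mul_div_cancel_left _ hg
  have hQ'0 : 0 < Q' := by
    rcases Nat.eq_zero_or_pos Q' with h | h
    · rw [h, mul_zero] at hq
      omega
    · exact h
  have key : ∀ y : ZMod Q, d * y = 0 ↔ Q' ∣ y.val := by
    intro y
    rw [← hQ', hgdef, ← dvd_mul_iff hQ, ← ZMod.natCast_eq_zero_iff]
    push_cast
    rw [ZMod.natCast_zmod_val, ZMod.natCast_zmod_val]
  have hlt : ∀ j, j < g → Q' * j < Q := by
    intro j hj
    rw [hq, mul_comm g Q']
    exact Nat.mul_lt_mul_of_pos_left hj hQ'0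
  have e : ({y : ZMod Q | d * y = 0} : Finset (ZMod Q)) =
      (range g).image fun j => ((Q' * j : ℕ) : ZMod Q) := by
    ext y
    rw [mem_filter, mem_image, key]
    constructor
    · rintro ⟨-, j, hj⟩
      refine ⟨j, ?_, ?_⟩
      · rw [mem_range]
        have h1 := ZMod.val_lt y
        rw [hj] at h1
        by_contra h
        push Not at h
        have h2 : Q' * g ≤ Q' * j := Nat.mul_le_mul_left _ h
        rw [mul_comm Q' g, ← hq] at h2
        omega
      · rw [← hj, ZMod.natCast_zmod_val]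
    · rintro ⟨j, hj, rfl⟩
      refine ⟨mem_univ _, ?_⟩
      rw [ZMod.val_natCast_of_lt (hlt j (mem_range.1 hj))]
      exact Dvd.intro _ rfl
  rw [e, card_image_of_injOn, card_range]
  intro i hi j hj h
  rw [mem_coe, mem_range] at hi hj
  have h1 := congrArg ZMod.val h
  simp only at h1
  rw [ZMod.val_natCast_of_lt (hlt i hi), ZMod.val_natCast_of_lt (hlt j hj)] at h1
  exact Nat.eq_of_mul_eq_mul_left hQ'0 h1

theorem card_sol_le {R : Type*} [CommRing R] [Fintype R] [DecidableEq R] (a b : R) :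
    #{s : R | a * s = b} ≤ #{s : R | a * s = 0} := by
  rcases ({s : R | a * s = b} : Finset R).eq_empty_or_nonempty with h | ⟨s0, h⟩
  · rw [h, card_empty]
    exact Nat.zero_le _
  · rw [mem_filter] at h
    refine card_le_card_of_injOn (fun s => s - s0) ?_ ?_
    · intro s hs
      rw [mem_coe, mem_filter] at hs
      rw [mem_coe, mem_filter]
      refine ⟨mem_univ _, ?_⟩
      rw [mul_sub, hs.2, h.2, sub_self]
    · intro s _ s' _ h
      exact sub_left_injective h

theorem gcd_pow (L : ℕ) (d : ℕ) : ∃ s ≤ L, Nat.gcd d (2 ^ L) = 2 ^ s :=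
  (Nat.dvd_prime_pow Nat.prime_two).1 (Nat.gcd_dvd_right _ _)

theorem val_mod {L s : ℕ} (hs : s ≤ L) (u d y : ZMod (2 ^ L)) (hd : 2 ^ s ∣ d.val) :
    (u + d * y).val % 2 ^ s = u.val % 2 ^ s := by
  have h1 : (2 : ℕ) ^ s ∣ 2 ^ L := pow_dvd_pow 2 hs
  rw [ZMod.val_add, ZMod.val_mul, Nat.mod_mod_of_dvd _ h1, Nat.add_mod, Nat.mod_mod_of_dvd _ h1,
    Nat.mul_mod, Nat.mod_eq_zero_of_dvd hd, zero_mul, Nat.zero_mod, add_zero, Nat.mod_mod]

/-- values of an affine function in a window -/
theorem affine (L w : ℕ) (u d : ZMod (2 ^ L)) :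
    #{y : ZMod (2 ^ L) | (u + d * y).val < 2 ^ w} ≤ max (2 ^ w) (Nat.gcd d.val (2 ^ L)) := by
  obtain ⟨s, hs, hg⟩ := gcd_pow L d.val
  have hd : 2 ^ s ∣ d.val := by
    rw [← hg]
    exact Nat.gcd_dvd_left _ _
  have hsp : 0 < 2 ^ s := by positivity
  set A : Finset (ZMod (2 ^ L)) := {y : ZMod (2 ^ L) | (u + d * y).val < 2 ^ w} with hA
  have h1 : #A ≤ 2 ^ s * #(A.image fun y => u + d * y) := by
    refine card_le_mul_card_image A (2 ^ s) fun z _ => ?_
    calc _ ≤ #{y : ZMod (2 ^ L) | d * y = z - u} := by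
          refine card_le_card fun y hy => ?_
          rw [mem_filter] at hy ⊢
          refine ⟨mem_univ _, ?_⟩
          rw [← hy.2]
          ring
      _ ≤ #{y : ZMod (2 ^ L) | d * y = 0} := card_sol_le _ _
      _ = 2 ^ s := by rw [ker_card, hg]
  have h2 : #(A.image fun y => u + d * y) ≤ max (2 ^ w / 2 ^ s) 1 := by
    calc _ ≤ #(range (max (2 ^ w / 2 ^ s) 1)) := by
          refine card_le_card_of_injOn (fun z => z.val / 2 ^ s) ?_ ?_
          · intro z hz
            rw [mem_coe, mem_image] at hz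
            obtain ⟨y, hy, rfl⟩ := hz
            rw [hA, mem_filter] at hy
            rw [mem_coe, mem_range]
            rcases le_or_gt s w with h | h
            · refine lt_of_lt_of_le ?_ (le_max_left _ _)
              rw [Nat.div_lt_iff_lt_mul hsp, Nat.div_mul_cancel (pow_dvd_pow 2 h)]
              exact hy.2
            · refine lt_of_lt_of_le ?_ (le_max_right _ _)
              rw [Nat.div_lt_iff_lt_mul hsp, one_mul]
              exact hy.2.trans (Nat.pow_lt_pow_right (by norm_num) h)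
          · intro z hz z' hz' h
            rw [mem_coe, mem_image] at hz hz'
            obtain ⟨y, _, rfl⟩ := hz
            obtain ⟨y', _, rfl⟩ := hz'
            simp only at h
            apply ZMod.val_injective
            rw [← Nat.div_add_mod (u + d * y).val (2 ^ s), ← Nat.div_add_mod (u + d * y').val (2 ^ s),
              h, val_mod hs u d y hd, val_mod hs u d y' hd]
      _ = max (2 ^ w / 2 ^ s) 1 := card_range _
  rw [hg]
  refine (h1.trans (Nat.mul_le_mul_left _ h2)).trans ?_
  rcases le_or_gt s w with h | h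
  · have h3 : 2 ^ s * (2 ^ w / 2 ^ s) = 2 ^ w := Nat.mul_div_cancel' (pow_dvd_pow 2 h)
    have h4 : 1 ≤ 2 ^ w / 2 ^ s := by
      rw [Nat.one_le_div_iff hsp]
      exact Nat.pow_le_pow_right (by norm_num) h
    rw [max_eq_left h4, h3]
    exact le_max_left _ _
  · rw [Nat.div_eq_of_lt (Nat.pow_lt_pow_right (by norm_num) h), max_eq_right (Nat.zero_le _), mul_one]
    exact le_max_right _ _

theorem e1 : S_E1 := by
  intro L w n n' a a' hw
  set B : Finset (ZMod (2 ^ L) × ZMod (2 ^ L)) :=
    {p : ZMod (2 ^ L) × ZMod (2 ^ L) | (II L n a p).val < 2 ^ w ∧ (II L n' a' p).val < 2 ^ w} with hB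
  have h1 : #B ≤ max (2 ^ w) (Nat.gcd (a - a').val (2 ^ L)) * #(B.image (II L n a)) := by
    refine card_le_mul_card_image B _ fun r _ => ?_
    refine le_trans ?_ (affine L w (r + (n - n')) (a - a'))
    refine card_le_card_of_injOn (fun p => 24 * p.2 - p.1) ?_ ?_
    · intro p hp
      rw [mem_coe, mem_filter, hB, mem_filter] at hp
      rw [mem_coe, mem_filter]
      refine ⟨mem_univ _, ?_⟩
      have e : r + (n - n') + (a - a') * (24 * p.2 - p.1) = II L n' a' p := by
        rw [← hp.2]
        unfold II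
        ring
      rw [e]
      exact hp.1.2.2
    · intro p hp q hq h
      rw [mem_coe, mem_filter] at hp hq
      have h3 := hp.2.trans hq.2.symm
      simp only at h
      unfold II at h3
      have h4 : p.2 = q.2 := by linear_combination h3 + a * h
      refine Prod.ext ?_ h4
      linear_combination (-1 : ZMod (2 ^ L)) * h + 24 * h4
  have h2 : #(B.image (II L n a)) ≤ 2 ^ w := by
    calc _ ≤ #(range (2 ^ w)) := by
          refine card_le_card_of_injOn (fun z => z.val) ?_ ?_
          · intro z hz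
            rw [mem_coe, mem_image] at hz
            obtain ⟨p, hp, rfl⟩ := hz
            rw [hB, mem_filter] at hp
            rw [mem_coe, mem_range]
            exact hp.2.1
          · intro z _ z' _ h
            exact ZMod.val_injective _ h
      _ = 2 ^ w := card_range _
  calc _ ≤ max (2 ^ w) (Nat.gcd (a - a').val (2 ^ L)) * 2 ^ w := h1.trans (Nat.mul_le_mul_left _ h2)
    _ = _ := mul_comm _ _

end Pool.Agent.H139.PPE1
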