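import Pool.Agent.H724.ST.Stm

/-!
ST-SEC: sections of the star of a recognizable relation are regular.
-/

set_option autoImplicit false

namespace Pool.Agent.H139.STSEC

open Pool.Agent.H724.ST

variable {L : List Bool → List Bool → Prop}

theorem StP_append {u v u' v' : List Bool} (h : StP L u v) (h' : StP L u' v') :
    StP L (u ++ u') (v ++ v') := by
  induction h with
  | nil => exact h'
  | cons hp _ ih =>
    rw [List.append_assoc, List.append_assoc]
    exact StP.cons hp ih

theorem StP_single {u v : List Bool} (h : L u v) : StP L u v := by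
  have := StP.cons h (StP.nil (L := L))
  rwa [List.append_nil, List.append_nil] at this

/-- Splitting lemma. -/
theorem split {U W : List Bool} (h : StP L U W) : ∀ v z : List Bool, W = v ++ z →
    (∃ U1 P U2 v' r' z' z'' : List Bool, U = U1 ++ (P ++ U2) ∧ v = v' ++ r' ∧ z = z' ++ z'' ∧
      StP L U1 v' ∧ StP L U2 z'' ∧ L P (r' ++ z')) ∨
    (∃ U1 U2 : List Bool, U = U1 ++ U2 ∧ StP L U1 v ∧ StP L U2 z) := by
  induction h with
  | nil =>
    intro v z hvz
    have h' := List.append_eq_nil_iff.1 hvz.symm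
    obtain ⟨rfl, rfl⟩ := h'
    exact Or.inr ⟨[], [], rfl, StP.nil, StP.nil⟩
  | @cons p1 p2 U' W' hp hrest ih =>
    intro v z hvz
    rcases List.append_eq_append_iff.1 hvz with ⟨a', h1, h2⟩ | ⟨c', h1, h2⟩
    · rcases ih a' z h2 with ⟨U1, P, U2, v', r', z', z'', e1, e2, e3, s1, s2, l⟩ |
        ⟨U1, U2, e1, s1, s2⟩
      · refine Or.inl ⟨p1 ++ U1, P, U2, p2 ++ v', r', z', z'', ?_, ?_, e3, StP.cons hp s1, s2, l⟩
        · rw [e1, List.append_assoc]
        · rw [h1, e2, List.append_assoc]
      · refine Or.inr ⟨p1 ++ U1, U2, ?_, ?_, s2⟩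
        · rw [e1, List.append_assoc]
        · rw [h1]
          exact StP.cons hp s1
    · refine Or.inl ⟨[], p1, U', [], v, c', W', rfl, rfl, h2, StP.nil, hrest, ?_⟩
      rw [← h1]
      exact hp

/-- The class of a word on the right. -/
def th (L : List Bool → List Bool → Prop) (r : List Bool) : Set (List Bool × List Bool) :=
  {s | L s.1 (r ++ s.2)}

def Ph1 (L : List Bool → List Bool → Prop) (u v : List Bool) :
    Set (ℕ × Set (List Bool × List Bool)) :=
  {x | x.1 ≤ u.length ∧ ∃ v' r', v = v' ++ r' ∧ StP L (u.take x.1) v' ∧ x.2 = th L r'}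

def Ph2 (L : List Bool → List Bool → Prop) (u v : List Bool) : Set ℕ :=
  {i | i ≤ u.length ∧ StP L (u.take i) v}

def GG (L : List Bool → List Bool → Prop) (u : List Bool)
    (S : Set (ℕ × Set (List Bool × List Bool)) × Set ℕ) : Set (List Bool) :=
  {z | (∃ x ∈ S.1, ∃ P U2 z' z'' : List Bool, u.drop x.1 = P ++ U2 ∧ z = z' ++ z'' ∧
      (P, z') ∈ x.2 ∧ StP L U2 z'') ∨ ∃ i ∈ S.2, StP L (u.drop i) z}

theorem section_eq (u v : List Bool) :
    {z | v ++ z ∈ {v | StP L u v}} = GG L u (Ph1 L u v, Ph2 L u v) := by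
  ext z
  constructor
  · intro h
    rcases split h v z rfl with ⟨U1, P, U2, v', r', z', z'', e1, e2, e3, s1, s2, l⟩ |
      ⟨U1, U2, e1, s1, s2⟩
    · refine Or.inl ⟨(U1.length, th L r'), ⟨?_, v', r', e2, ?_, rfl⟩, P, U2, z', z'', ?_, e3, l, s2⟩
      · rw [e1, List.length_append]
        exact Nat.le_add_right _ _
      · rw [e1, List.take_left]
        exact s1
      · rw [e1, List.drop_left]
    · refine Or.inr ⟨U1.length, ⟨?_, ?_⟩, ?_⟩
      · rw [e1, List.length_append]
        exact Nat.le_add_right _ _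
      · rw [e1, List.take_left]
        exact s1
      · rw [e1, List.drop_left]
        exact s2
  · intro h
    show StP L u (v ++ z)
    rcases h with ⟨⟨i, e⟩, ⟨_, v', r', e2, s1, he⟩, P, U2, z', z'', e1, e3, l, s2⟩ | ⟨i, ⟨_, s1⟩, s2⟩
    · have he' : e = th L r' := he
      have l' : L P (r' ++ z') := by
        have l2 : (P, z') ∈ e := l
        rw [he'] at l2
        exact l2
      have h1 : StP L (u.take i ++ (P ++ U2)) (v' ++ ((r' ++ z') ++ z'')) :=
        StP_append s1 (StP.cons l' s2)
      have e1' : u.drop i = P ++ U2 := e1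
      rw [← e1', List.take_append_drop] at h1
      rw [e2, e3]
      rw [List.append_assoc] at h1
      rw [List.append_assoc]
      exact h1
    · have h1 := StP_append s1 s2
      rwa [List.take_append_drop] at h1

theorem sec1 (h : (Set.range fun v => {r : List Bool × List Bool | L r.1 (v ++ r.2)}).Finite)
    (u : List Bool) : Reg {v | StP L u v} := by
  have hth : (Set.range (th L)).Finite := h
  have hfin : ((Set.powerset (Set.Iic u.length ×ˢ Set.range (th L))) ×ˢ
      (Set.powerset (Set.Iic u.length))).Finite :=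
    ((Set.finite_Iic _).prod hth).finite_subsets.prod (Set.finite_Iic _).finite_subsets
  refine (hfin.image (GG L u)).subset ?_
  rintro _ ⟨v, rfl⟩
  refine ⟨(Ph1 L u v, Ph2 L u v), ⟨?_, ?_⟩, (section_eq u v).symm⟩
  · rintro ⟨i, e⟩ ⟨h1, v', r', _, _, h2⟩
    exact ⟨h1, r', h2.symm⟩
  · rintro i ⟨h1, _⟩
    exact h1

theorem StP_swap {u v : List Bool} (h : StP L u v) : StP (fun a b => L b a) v u := by
  induction h with
  | nil => exact StP.nil
  | cons hp _ ih => exact StP.cons (L := fun a b => L b a) hp ih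

end Pool.Agent.H139.STSEC

namespace Pool.Agent.H139

open Pool.Agent.H724.ST STSEC

theorem sec_ : S_SEC := by
  intro L hL u
  refine ⟨sec1 hL.2 u, ?_⟩
  have h2 : (Set.range fun v => {r : List Bool × List Bool |
      (fun a b => L b a) r.1 (v ++ r.2)}).Finite := by
    refine (hL.1.image (fun S => Prod.swap ⁻¹' S)).subset ?_
    rintro _ ⟨v, rfl⟩
    exact ⟨_, ⟨v, rfl⟩, rfl⟩
  have h3 := sec1 (L := fun a b => L b a) h2 u
  have h4 : {v | StP L v u} = {v | StP (fun a b => L b a) u v} := by
    ext v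
    exact ⟨fun h => StP_swap h, fun h => StP_swap (L := fun a b => L b a) h⟩
  rw [h4]
  exact h3

end Pool.Agent.H139
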