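import Pool.Agent.H724.ST.Stm

/-!
ST-TR2: from relations to the trace monoid.
-/

set_option autoImplicit false

namespace Pool.Agent.H139.STTR2

open Pool.Agent.H724.ST
open scoped Classical

noncomputable section

variable {k : ℕ} {σ τ : Type}

/-- The action of a letter. -/
def act (a b c d : Fin k) (f : σ → Bool → σ) (g : τ → Bool → τ) (e : Fin k) :
    Option (σ × τ) → Option (σ × τ)
  | none => none
  | some p => if e = a then some (f p.1 false, p.2) else if e = c then some (f p.1 true, p.2)
      else if e = b then some (p.1, g p.2 false) else if e = d then some (p.1, g p.2 true) else none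

theorem act_none (a b c d : Fin k) (f : σ → Bool → σ) (g : τ → Bool → τ) (e : Fin k) :
    act a b c d f g e none = none := rfl

theorem foldl_none (a b c d : Fin k) (f : σ → Bool → σ) (g : τ → Bool → τ) (w : List (Fin k)) :
    w.foldl (fun o e => act a b c d f g e o) none = none := by
  induction w with
  | nil => rfl
  | cons e w ih => rw [List.foldl_cons, act_none, ih]

theorem act_comm {I : Fin k → Fin k → Prop} (hs : ∀ e f, I e f → I f e) (hi : ∀ e, ¬ I e e)
    {a b c d : Fin k} (h4 : IsC4 I a b c d) (f : σ → Bool → σ) (g : τ → Bool → τ)
    {e e' : Fin k} (hI : I e e') (o : Option (σ × τ)) :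
    act a b c d f g e (act a b c d f g e' o) = act a b c d f g e' (act a b c d f g e o) := by
  obtain ⟨hac, hbd, iab, ibc, icd, ida, nac, nbd⟩ := h4
  have hab : a ≠ b := by rintro rfl; exact hi _ iab
  have hbc : b ≠ c := by rintro rfl; exact hi _ ibc
  have hcd : c ≠ d := by rintro rfl; exact hi _ icd
  have hda : d ≠ a := by rintro rfl; exact hi _ ida
  have nca : ¬ I c a := fun h => nac (hs _ _ h)
  have ndb : ¬ I d b := fun h => nbd (hs _ _ h)
  cases o with
  | none => rfl
  | some p =>
    obtain ⟨s, t⟩ := p
    by_cases e1 : e = a
    · subst e1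
      by_cases e2 : e' = e
      · subst e2; rfl
      · by_cases e3 : e' = c
        · subst e3; exact absurd hI nac
        · by_cases e4 : e' = b
          · subst e4
            simp [act, hab.symm, hbc, hac]
          · by_cases e5 : e' = d
            · subst e5
              simp [act, hda, hcd.symm, hbd.symm, hac]
            · simp [act, e2, e3, e4, e5]
    · by_cases e2 : e = c
      · subst e2
        by_cases f1 : e' = a
        · subst f1; exact absurd hI nca
        · by_cases f2 : e' = e
          · subst f2; rfl
          · by_cases f3 : e' = b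
            · subst f3
              simp [act, hab.symm, hbc, hac.symm]
            · by_cases f4 : e' = d
              · subst f4
                simp [act, hda, hcd.symm, hbd.symm, hac.symm]
              · simp [act, f1, f2, f3, f4, e1]
      · by_cases e3 : e = b
        · subst e3
          by_cases f1 : e' = a
          · subst f1
            simp [act, hab.symm, hbc, hac]
          · by_cases f2 : e' = c
            · subst f2
              simp [act, hab.symm, hbc, hac.symm]
            · by_cases f3 : e' = e
              · subst f3; rfl
              · by_cases f4 : e' = d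
                · subst f4; exact absurd hI nbd
                · simp [act, f1, f2, f3, f4, e1, e2]
        · by_cases e4 : e = d
          · subst e4
            by_cases f1 : e' = a
            · subst f1
              simp [act, hda, hcd.symm, hbd.symm, hac]
            · by_cases f2 : e' = c
              · subst f2
                simp [act, hda, hcd.symm, hbd.symm, hac.symm]
              · by_cases f3 : e' = b
                · subst f3; exact absurd hI ndb
                · by_cases f4 : e' = e
                  · subst f4; rfl
                  · simp [act, f1, f2, f3, f4, e1, e2, e3]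
          · have hn : ∀ q : Option (σ × τ), act a b c d f g e q = none := by
              intro q
              cases q with
              | none => rfl
              | some q => simp [act, e1, e2, e3, e4]
            rw [hn, hn, act_none]

theorem foldl_act {a b c d : Fin k} (hab : a ≠ b) (hac : a ≠ c) (had : a ≠ d) (hbc : b ≠ c)
    (hbd : b ≠ d) (hcd : c ≠ d) (f : σ → Bool → σ) (g : τ → Bool → τ) (w : List (Fin k)) :
    ∀ s t, w.foldl (fun o e => act a b c d f g e o) (some (s, t)) =
      if (∀ e ∈ w, e = a ∨ e = b ∨ e = c ∨ e = d) then
        some ((w.filterMap (rd a c)).foldl f s, (w.filterMap (rd b d)).foldl g t) else none := by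
  induction w with
  | nil =>
    intro s t
    simp
  | cons e w ih =>
    intro s t
    rw [List.foldl_cons]
    by_cases h : e = a ∨ e = b ∨ e = c ∨ e = d
    · have hiff : (∀ x ∈ e :: w, x = a ∨ x = b ∨ x = c ∨ x = d) ↔
          (∀ x ∈ w, x = a ∨ x = b ∨ x = c ∨ x = d) := by
        rw [List.forall_mem_cons]
        exact and_iff_right h
      rcases h with rfl | rfl | rfl | rfl
      · have e1 : act e b c d f g e (some (s, t)) = some (f s false, t) := by simp [act]
        have r1 : rd e c e = some false := by simp [rd]
        have r2 : rd b d e = none := by simp [rd, hab, had]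
        rw [e1, ih, if_congr hiff rfl rfl, List.filterMap_cons, List.filterMap_cons, r1, r2]
        rfl
      · have e1 : act a e c d f g e (some (s, t)) = some (s, g t false) := by
          simp [act, hab.symm, hbc]
        have r1 : rd a c e = none := by simp [rd, hab.symm, hbc]
        have r2 : rd e d e = some false := by simp [rd]
        rw [e1, ih, if_congr hiff rfl rfl, List.filterMap_cons, List.filterMap_cons, r1, r2]
        rfl
      · have e1 : act a b e d f g e (some (s, t)) = some (f s true, t) := by
          simp [act, hac.symm]
        have r1 : rd a e e = some true := by simp [rd, hac.symm]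
        have r2 : rd b d e = none := by simp [rd, hbc.symm, hcd]
        rw [e1, ih, if_congr hiff rfl rfl, List.filterMap_cons, List.filterMap_cons, r1, r2]
        rfl
      · have e1 : act a b c e f g e (some (s, t)) = some (s, g t true) := by
          simp [act, had.symm, hcd.symm, hbd.symm]
        have r1 : rd a c e = none := by simp [rd, had.symm, hcd.symm]
        have r2 : rd b e e = some true := by simp [rd, hbd.symm]
        rw [e1, ih, if_congr hiff rfl rfl, List.filterMap_cons, List.filterMap_cons, r1, r2]
        rfl
    · have hn : ¬ (∀ x ∈ e :: w, x = a ∨ x = b ∨ x = c ∨ x = d) := fun h' => h (h' e (by simp))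
      rw [if_neg hn]
      push Not at h
      have e1 : act a b c d f g e (some (s, t)) = none := by
        simp [act, h.1, h.2.1, h.2.2.1, h.2.2.2]
      rw [e1, foldl_none]

end

end Pool.Agent.H139.STTR2

namespace Pool.Agent.H139

open Pool.Agent.H724.ST STTR2
open scoped Classical

theorem tr2_ (hTR0 : S_TR0) : S_TR2 := by
  intro k I hs hi a b c d h4 L hMez
  have h0 := hTR0 k I hs hi a b c d h4 L
  obtain ⟨σ, τ, hσ, hτ, f, s0, g, t0, F, hF⟩ := hMez
  have h4' := h4
  obtain ⟨hac, hbd, iab, ibc, icd, ida, nac, nbd⟩ := h4'
  have hab : a ≠ b := by rintro rfl; exact hi _ iab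
  have hbc : b ≠ c := by rintro rfl; exact hi _ ibc
  have hcd : c ≠ d := by rintro rfl; exact hi _ icd
  have hda : d ≠ a := by rintro rfl; exact hi _ ida
  let A : Fin k → (Function.End (Option (σ × τ)))ᵐᵒᵖ := fun e =>
    MulOpposite.op (act a b c d f g e : Function.End (Option (σ × τ)))
  let h1 : FreeMonoid (Fin k) →* (Function.End (Option (σ × τ)))ᵐᵒᵖ := FreeMonoid.lift A
  have hle : traceCon k I ≤ Con.ker h1 := by
    refine Con.conGen_le.2 ?_
    rintro u v ⟨x, y, hxy, rfl, rfl⟩
    rw [Con.ker_rel]
    rw [map_mul, map_mul]
    have e1 : h1 (FreeMonoid.of x) = A x := FreeMonoid.lift_eval_of A x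
    have e2 : h1 (FreeMonoid.of y) = A y := FreeMonoid.lift_eval_of A y
    rw [e1, e2]
    apply MulOpposite.unop_injective
    funext o
    show act a b c d f g y (act a b c d f g x o) = act a b c d f g x (act a b c d f g y o)
    exact (act_comm hs hi h4 f g hxy o).symm
  let h2 : TraceMonoid k I →* (Function.End (Option (σ × τ)))ᵐᵒᵖ := Con.lift (traceCon k I) h1 hle
  have hval : ∀ (w : List (Fin k)) (o : Option (σ × τ)),
      (h2 (trace k I w)).unop o = w.foldl (fun o e => act a b c d f g e o) o := by
    intro w
    have hw : h2 (trace k I w) = h1 (FreeMonoid.ofList w) := Con.lift_coe hle _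
    rw [hw]
    induction w with
    | nil =>
      intro o
      rfl
    | cons e w ih =>
      intro o
      have e1 : h1 (FreeMonoid.ofList (e :: w)) = A e * h1 (FreeMonoid.ofList w) := by
        have : FreeMonoid.ofList (e :: w) = FreeMonoid.of e * FreeMonoid.ofList w := rfl
        rw [this, map_mul, FreeMonoid.lift_eval_of]
      rw [e1, List.foldl_cons]
      rw [MulOpposite.unop_mul]
      have ih' := ih (Con.lift_coe hle _) (act a b c d f g e o)
      rw [← ih']
      rfl
  have hmem : ∀ w : List (Fin k),
      trace k I w ∈ Submonoid.closure (trace k I '' KW a b c d L) ↔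
        ∃ x ∈ F, (h2 (trace k I w)).unop (some (s0, t0)) = some x := by
    intro w
    rw [h0 w, hval, foldl_act hab hac hda.symm hbc hbd hcd]
    constructor
    · rintro ⟨hw1, hw2⟩
      rw [if_pos hw1]
      exact ⟨_, (hF _ _).1 hw2, rfl⟩
    · rintro ⟨x, hx, hx2⟩
      by_cases hw1 : ∀ e ∈ w, e = a ∨ e = b ∨ e = c ∨ e = d
      · rw [if_pos hw1] at hx2
        refine ⟨hw1, (hF _ _).2 ?_⟩
        rw [Option.some.inj hx2]
        exact hx
      · rw [if_neg hw1] at hx2
        exact absurd hx2 (by simp)
  have hsurj : ∀ m : TraceMonoid k I, ∃ w, trace k I w = m := by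
    intro m
    obtain ⟨x, rfl⟩ := Con.mk'_surjective (c := traceCon k I) m
    exact ⟨FreeMonoid.toList x, rfl⟩
  have hfin : Finite (Function.End (Option (σ × τ)))ᵐᵒᵖ := by
    have : Finite (Option (σ × τ) → Option (σ × τ)) := inferInstance
    have h3 : Finite (Function.End (Option (σ × τ))) := this
    exact Finite.of_equiv _ (MulOpposite.opEquiv (α := Function.End (Option (σ × τ))))
  refine ⟨(Function.End (Option (σ × τ)))ᵐᵒᵖ, inferInstance, hfin, h2, ?_⟩
  ext m
  constructor
  · intro hm
    exact ⟨m, hm, rfl⟩
  · rintro ⟨m', hm', heq⟩
    obtain ⟨w, rfl⟩ := hsurj m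
    obtain ⟨w', rfl⟩ := hsurj m'
    have h5 := (hmem w').1 hm'
    rw [heq] at h5
    exact (hmem w).2 h5

end Pool.Agent.H139
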