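import Pool.Agent.H666.TK.SpecB

/-!
# S_cs
-/

set_option autoImplicit false

open Finset
open scoped Classical

namespace Pool.Agent.H139.TK

open Pool.Agent.H666.TK

theorem cs : S_cs := by
  intro V _ _ H B k
  set α : Finset V × V → ℕ := fun p =>
    ((univ : Finset (V × V)).filter fun q => Lt H B p.1 q.1 q.2 p.2).card with hα
  have hTL : (TL H B k).card = ∑ p ∈ Cs H k ×ˢ (univ : Finset V), α p := by
    rw [card_eq_sum_card_fiberwise (f := fun p : Finset V × V × V × V => (p.1, p.2.2.2))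
      (t := Cs H k ×ˢ (univ : Finset V))]
    · refine sum_congr rfl fun p hp => ?_
      rw [mem_product] at hp
      rw [hα]
      refine card_nbij' (fun q => (q.2.1, q.2.2.1)) (fun q => (p.1, q.1, q.2, p.2)) ?_ ?_ ?_ ?_
      · rintro ⟨R, a, b, x⟩ hq
        simp only [coe_filter, TL, mem_filter, mem_univ, true_and, Set.mem_ofPred_eq] at hq ⊢
        obtain ⟨⟨h1, h2⟩, h3⟩ := hq
        subst h3
        exact h2
      · rintro ⟨a, b⟩ hq
        simp only [coe_filter, TL, mem_filter, mem_univ, true_and, Set.mem_ofPred_eq] at hq ⊢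
        exact ⟨⟨hp.1, hq⟩, trivial⟩
      · rintro ⟨R, a, b, x⟩ hq
        simp only [coe_filter, TL, mem_filter, mem_univ, true_and, Set.mem_ofPred_eq] at hq ⊢
        obtain ⟨⟨h1, h2⟩, h3⟩ := hq
        subst h3
        rfl
      · rintro ⟨a, b⟩ hq
        rfl
    · rintro ⟨R, a, b, x⟩ hq
      simp only [TL, coe_filter, mem_univ, true_and, Set.mem_ofPred_eq] at hq
      simp only [coe_product, Set.mem_prod, mem_coe, mem_univ, and_true]
      exact hq.1
  have hQQ : (QQ H B k).card = ∑ p ∈ Cs H k ×ˢ (univ : Finset V), α p ^ 2 := by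
    rw [card_eq_sum_card_fiberwise
      (f := fun p : Finset V × V × V × V × V × V => (p.1, p.2.2.2.1))
      (t := Cs H k ×ˢ (univ : Finset V))]
    · refine sum_congr rfl fun p hp => ?_
      rw [mem_product] at hp
      rw [hα, sq, ← card_product]
      refine card_nbij' (fun q => ((q.2.1, q.2.2.1), (q.2.2.2.2.1, q.2.2.2.2.2)))
        (fun q => (p.1, q.1.1, q.1.2, p.2, q.2.1, q.2.2)) ?_ ?_ ?_ ?_
      · rintro ⟨R, a, b, x, c, z⟩ hq
        simp only [coe_filter, QQ, mem_filter, mem_univ, true_and, Set.mem_ofPred_eq,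
          coe_product, Set.mem_prod] at hq ⊢
        obtain ⟨⟨h1, h2, h2'⟩, h3⟩ := hq
        subst h3
        exact ⟨h2, h2'⟩
      · rintro ⟨⟨a, b⟩, ⟨c, z⟩⟩ hq
        simp only [coe_filter, QQ, mem_filter, mem_univ, true_and, Set.mem_ofPred_eq,
          coe_product, Set.mem_prod] at hq ⊢
        exact ⟨⟨hp.1, hq.1, hq.2⟩, trivial⟩
      · rintro ⟨R, a, b, x, c, z⟩ hq
        simp only [coe_filter, QQ, mem_filter, mem_univ, true_and, Set.mem_ofPred_eq] at hq ⊢
        obtain ⟨⟨h1, h2, h2'⟩, h3⟩ := hq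
        subst h3
        rfl
      · rintro ⟨⟨a, b⟩, ⟨c, z⟩⟩ hq
        rfl
    · rintro ⟨R, a, b, x, c, z⟩ hq
      simp only [QQ, coe_filter, mem_univ, true_and, Set.mem_ofPred_eq] at hq
      simp only [coe_product, Set.mem_prod, mem_coe, mem_univ, and_true]
      exact hq.1
  have hcs := sq_sum_le_card_mul_sum_sq (s := Cs H k ×ˢ (univ : Finset V)) (f := α)
  rw [← hTL, ← hQQ, card_product, Finset.card_univ] at hcs
  calc (TL H B k).card ^ 2 ≤ (Cs H k).card * Fintype.card V * (QQ H B k).card := hcs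
    _ = Fintype.card V * N H k * (QQ H B k).card := by unfold N; ring

end Pool.Agent.H139.TK
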