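import Pool.Agent.H666.TK.SpecB

/-!
# S_part and S_loc
-/

set_option autoImplicit false

open Finset
open scoped Classical

namespace Pool.Agent.H139.TK

open Pool.Agent.H666.TK

theorem part : S_part := by
  intro V _ _ H L hL
  unfold e Sg Dd
  have h1 : L.card = ∑ x : V, if x ∈ L then 1 else 0 := by simp
  have h2 : (ext H L).card = ∑ x : V, if x ∈ ext H L then 1 else 0 := by simp
  rw [card_filter, card_filter, h1, h2, ← sum_add_distrib, ← sum_add_distrib, ← sum_add_distrib,
    ← Finset.card_univ, Finset.card_eq_sum_ones]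
  refine sum_congr rfl fun x _ => ?_
  by_cases hx : x ∈ L
  · have hne : x ∉ ext H L := fun h => (mem_ext.1 h).1 hx
    rw [if_pos hx, if_neg hne, if_neg (fun h => h.1 hx), if_neg (fun h => h.1 hx)]
  · have hiff := lk_eq_empty_iff hL hx
    by_cases hc : lk H L x = ∅
    · have hext : x ∈ ext H L := mem_ext.2 ⟨hx, hiff.1 hc⟩
      have h0 : (lk H L x).card = 0 := by rw [hc]; rfl
      rw [if_neg hx, if_pos hext, if_neg (fun h => by omega), if_neg (fun h => by omega)]
    · have hext : x ∉ ext H L := fun h => hc (hiff.2 (mem_ext.1 h).2)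
      have h0 : 0 < (lk H L x).card := card_pos.2 (nonempty_iff_ne_empty.2 hc)
      by_cases h1' : (lk H L x).card = 1
      · rw [if_neg hx, if_neg hext, if_pos ⟨hx, h1'⟩, if_neg (fun h => by omega)]
      · rw [if_neg hx, if_neg hext, if_neg (fun h => h1' h.2), if_pos ⟨hx, by omega⟩]

theorem mem_of_lk {V : Type} [Fintype V] [DecidableEq V] {H : Finset (Finset V)}
    {L : Finset V} {x a : V} (hx : x ∉ L)
    (hext : x ∈ ext H (L.erase a)) {P : Finset V} (hP : P ∈ lk H L x) : a ∈ P := by
  by_contra hcon
  rw [mem_lk] at hP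
  apply hP.2
  refine (mem_ext.1 hext).2 _ ?_ ?_
  · refine insert_subset_insert _ ?_
    intro y hy
    rw [mem_erase]
    exact ⟨fun h => hcon (h ▸ hy), hP.1.1 hy⟩
  · rw [card_insert_of_notMem (fun h' => hx (hP.1.1 h')), hP.1.2]

theorem loc : S_loc := by
  intro V _ _ H k L hL
  rw [mem_Cs] at hL
  obtain ⟨hcard, hcl⟩ := hL
  have hsum : ∑ a ∈ L, e H (L.erase a) =
      ∑ x : V, (L.filter fun a => x ∈ ext H (L.erase a)).card := by
    have h1 : ∀ a ∈ L, e H (L.erase a) = ∑ x : V, if x ∈ ext H (L.erase a) then 1 else 0 := by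
      intro a _
      unfold e
      simp
    rw [sum_congr rfl h1, sum_comm]
    refine sum_congr rfl fun x _ => ?_
    rw [card_filter]
  have hD : Dd H L = ∑ x : V, if (x ∉ L ∧ 2 ≤ (lk H L x).card) then 1 else 0 := by
    unfold Dd
    rw [card_filter]
  have hE : e H L = ∑ x : V, if x ∈ ext H L then 1 else 0 := by
    unfold e
    simp
  have hV : 2 * Fintype.card V = ∑ _x : V, 2 := by
    rw [sum_const, smul_eq_mul, Finset.card_univ, mul_comm]
  rw [hsum, hD, hV, hE, mul_sum, mul_sum, ← sum_add_distrib, ← sum_add_distrib,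
    ← sum_add_distrib]
  refine sum_le_sum fun x _ => ?_
  by_cases hx : x ∈ L
  · have hne : x ∉ ext H L := fun h => (mem_ext.1 h).1 hx
    have hc : (L.filter fun a => x ∈ ext H (L.erase a)).card ≤ 1 := by
      rw [card_le_one]
      intro a ha b hb
      rw [mem_filter] at ha hb
      have key : ∀ c : V, c ∈ L → x ∈ ext H (L.erase c) → c = x := by
        intro c _ hc
        by_contra hcx
        exact (mem_ext.1 hc).1 (mem_erase.2 ⟨fun h => hcx h.symm, hx⟩)
      rw [key a ha.1 ha.2, key b hb.1 hb.2]
    rw [if_neg hne, if_neg (fun h => h.1 hx)]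
    omega
  · have hiff := lk_eq_empty_iff hcl hx
    by_cases hc : lk H L x = ∅
    · have hext : x ∈ ext H L := mem_ext.2 ⟨hx, hiff.1 hc⟩
      have h0 : (lk H L x).card = 0 := by rw [hc]; rfl
      have hle : (L.filter fun a => x ∈ ext H (L.erase a)).card ≤ L.card :=
        card_le_card (filter_subset _ _)
      rw [if_pos hext, if_neg (fun h => by omega)]
      omega
    · have hext : x ∉ ext H L := fun h => hc (hiff.2 (mem_ext.1 h).2)
      obtain ⟨P, hP⟩ := nonempty_iff_ne_empty.2 hc
      have hsub : ∀ Q ∈ lk H L x, (L.filter fun a => x ∈ ext H (L.erase a)) ⊆ Q := by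
        intro Q hQ a ha
        rw [mem_filter] at ha
        exact mem_of_lk hx ha.2 hQ
      have hP2 : P.card = 2 := (mem_lk.1 hP).1.2
      have h2 : (L.filter fun a => x ∈ ext H (L.erase a)).card ≤ 2 := by
        rw [← hP2]
        exact card_le_card (hsub P hP)
      by_cases h1' : 2 ≤ (lk H L x).card
      · obtain ⟨Q, hQ, hne⟩ := exists_mem_ne (by omega : 1 < (lk H L x).card) P
        have hQ2 : Q.card = 2 := (mem_lk.1 hQ).1.2
        have h3 : (L.filter fun a => x ∈ ext H (L.erase a)).card ≤ 1 := by
          have hs : (L.filter fun a => x ∈ ext H (L.erase a)) ⊆ P ∩ Q :=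
            subset_inter (hsub P hP) (hsub Q hQ)
          have hc1 := card_le_card hs
          have hc2 : (P ∩ Q).card < 2 := by
            by_contra hcon
            push Not at hcon
            have e1 : P ∩ Q = P := eq_of_subset_of_card_le inter_subset_left (by omega)
            have e2 : P ∩ Q = Q := eq_of_subset_of_card_le inter_subset_right (by omega)
            exact hne (e2.symm.trans e1)
          omega
        rw [if_neg hext, if_pos ⟨hx, h1'⟩]
        omega
      · rw [if_neg hext, if_neg (fun h => h1' h.2)]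
        omega

end Pool.Agent.H139.TK
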