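import Pool.Agent.H770.GS.UQ
import Pool.Agent.H770.GS.Res3

/-!
# Project UQ, task UQ-12: two nonzero coordinates
-/

set_option autoImplicit false

open MeasureTheory Set intervalIntegral Filter Topology

namespace Pool.Agent.H139.UQ12

open Pool.Agent.H770.GS Pool.Agent.Helper82.GC

/-- a sorted list of nonnegative numbers is its own sorted list of absolute values -/
theorem srt_vec {n : ℕ} {L : List ℝ} (h : L.length = n) (hL : ∀ x ∈ L, 0 ≤ x)
    (hs : L.Pairwise (· ≥ ·)) : srt (vec n L) = L := by
  apply srt_of_perm
  · have e : (List.ofFn fun i => |vec n L i|) = (List.ofFn fun i => vec n L i).map fun x => |x| := by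
      rw [List.map_ofFn]
      rfl
    rw [e, ofFn_vec h]
    have e2 : L.map (fun x => |x|) = L := by
      calc L.map (fun x => |x|) = L.map id :=
            List.map_congr_left fun x hx => abs_of_nonneg (hL x hx)
        _ = L := List.map_id L
    rw [e2]
  · exact hs

theorem two_value {k : ℕ} {r x y : ℝ} (hr : 0 < r) (hy : 0 ≤ y) (hxy : y ≤ x)
    (h1 : x ^ 2 + y ^ 2 = 1) :
    Asl r (vec (k + 2) (x :: y :: List.replicate k 0)) 0 =
      Zr r ^ k * ∫ u in (-(r / x))..(r / x), W u := by
  have hlen : (x :: y :: List.replicate k (0 : ℝ)).length = k + 2 := by simp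
  have hsum : ((x :: y :: List.replicate k (0 : ℝ)).map fun x => x ^ 2).sum = 1 := by
    simp only [List.map_cons, List.sum_cons, List.map_replicate, List.sum_replicate]
    simp
    linarith
  have hnn : ∀ z ∈ (x :: y :: List.replicate k (0 : ℝ)), 0 ≤ z := by
    intro z hz
    simp only [List.mem_cons, List.mem_replicate] at hz
    rcases hz with h | h | h
    · rw [h]; exact hy.trans hxy
    · rw [h]; exact hy
    · rw [h.2]
  have hs : (x :: y :: List.replicate k (0 : ℝ)).Pairwise (· ≥ ·) := by
    refine List.Pairwise.cons ?_ (List.Pairwise.cons ?_ ?_)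
    · intro z hz
      simp only [List.mem_cons, List.mem_replicate] at hz
      rcases hz with h | h
      · rw [h]; exact hxy
      · rw [h.2]; exact hy.trans hxy
    · intro z hz
      simp only [List.mem_replicate] at hz
      rw [hz.2]; exact hy
    · rw [List.pairwise_replicate]
      exact Or.inr le_rfl
  exact Asl_two hr _ (vec_norm hlen hsum) (srt_vec hlen hnn hs)

theorem intW_strict {a b : ℝ} (hab : a < b) :
    ∫ u in (-a)..a, W u < ∫ u in (-b)..b, W u := by
  have hi : ∀ s t : ℝ, IntervalIntegrable W volume s t := fun s t => W_cont.intervalIntegrable _ _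
  have e : ∫ u in (-b)..b, W u =
      (∫ u in (-b)..(-a), W u) + (∫ u in (-a)..a, W u) + ∫ u in a..b, W u := by
    rw [intervalIntegral.integral_add_adjacent_intervals (hi _ _) (hi _ _),
      intervalIntegral.integral_add_adjacent_intervals (hi _ _) (hi _ _)]
  have p1 : 0 < ∫ u in (-b)..(-a), W u :=
    intervalIntegral.intervalIntegral_pos_of_pos (hi _ _) W_pos (by linarith)
  have p2 : 0 < ∫ u in a..b, W u :=
    intervalIntegral.intervalIntegral_pos_of_pos (hi _ _) W_pos hab
  rw [e]
  linarith

theorem two : S_two := by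
  intro k r x y hr hy hxy h1
  have hx : 0 < x := lt_of_le_of_lt hy hxy
  have hq0 : 0 ≤ qm x y := Real.sqrt_nonneg _
  have hq2 : qm x y ^ 2 = 1 / 2 := by rw [qm_sq, h1]
  have hq : 0 < qm x y := by
    rcases eq_or_lt_of_le hq0 with h | h
    · rw [← h] at hq2
      norm_num at hq2
    · exact h
  have hqx : qm x y < x := by
    have : y ^ 2 < x ^ 2 := by nlinarith
    nlinarith
  rw [two_value hr hy hxy.le h1, two_value hr hq0 le_rfl (by rw [hq2]; norm_num)]
  have hZ : 0 < Zr r ^ k := by
    have : 0 < Zr r := by
      unfold Zr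
      exact intervalIntegral.intervalIntegral_pos_of_pos (W_cont.intervalIntegrable _ _) W_pos
        (by linarith)
    positivity
  refine mul_lt_mul_of_pos_left ?_ hZ
  refine intW_strict ?_
  exact div_lt_div_of_pos_left hr hq hqx

end Pool.Agent.H139.UQ12
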